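import Pool.Agent.Work.MP_dcf6a6_c1.Interface

/-! # Blocks LINB and BAS3 of the complexity-one theorem -/

open Polynomial

namespace Pool.C1.helper52

noncomputable section

theorem stmt_LINB : Stmt_LINB := by
  intro J B _ _ _ _ D M _ _ t b₁ b₂ hb h b
  have hΔ : D.det b₁ b₂ ≠ 0 := sub_ne_zero.2 (D.indep b₁ b₂ hb)
  have h1 : D.det b₁ b₂ • t b = (D.al b * D.be b₂ - D.al b₂ * D.be b) • t b₁
      + (D.be b * D.al b₁ - D.al b * D.be b₁) • t b₂ := by
    rw [← sub_eq_zero, ← h b]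
    simp only [BData.det]
    module
  calc t b = (D.det b₁ b₂)⁻¹ • (D.det b₁ b₂ • t b) := (inv_smul_smul₀ hΔ _).symm
    _ = (D.det b₁ b₂)⁻¹ • ((D.al b * D.be b₂ - D.al b₂ * D.be b) • t b₁
      + (D.be b * D.al b₁ - D.al b * D.be b₁) • t b₂) := by rw [h1]
    _ = _ := by module

theorem filter_eq (D : BData (Fin 3) (Fin 3)) (hbl : ∀ i, D.bl i = i) (b : Fin 3) :
    (Finset.univ.filter fun j => D.bl j = b) = {b} := by
  ext j
  rw [Finset.mem_filter, Finset.mem_singleton, hbl]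
  exact ⟨fun h => h.2, fun h => ⟨Finset.mem_univ _, h⟩⟩

theorem stmt_BAS3 (hT : Stmt_TRIPLE) (hL : Stmt_LINB) : Stmt_BAS3 := by
  intro D hbl hpl
  have hdet : ∀ b b', b ≠ b' → D.det b b' ≠ 0 := fun b b' h => sub_ne_zero.2 (D.indep b b' h)
  obtain ⟨d, c, τ, hd, hc, hτ, hcop, hrel, hreg⟩ := hT D.l ![D.det 1 2, D.det 2 0, D.det 0 1]
    D.l_pos hpl (by
      intro i
      fin_cases i
      · exact hdet 1 2 (by decide)
      · exact hdet 2 0 (by decide)
      · exact hdet 0 1 (by decide))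
  have huu : ∀ b, D.uu τ b = τ b ^ D.l b := by
    intro b
    unfold BData.uu
    rw [filter_eq D hbl, Finset.prod_singleton]
  have hdu : ∀ (σ : Fin 3 → ℂ[X]) b, D.du τ σ b = C (D.l b : ℂ) * τ b ^ (D.l b - 1) * σ b := by
    intro σ b
    unfold BData.du
    rw [filter_eq D hbl, Finset.sum_singleton, Finset.erase_singleton, Finset.prod_empty, mul_one]
  -- the general use of LINB
  have key : ∀ t : Fin 3 → ℂ[X], C (D.det 1 2) * t 0 + C (D.det 2 0) * t 1 + C (D.det 0 1) * t 2 = 0 →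
      ∀ b, t b = C (D.al b) * ((D.det 0 1)⁻¹ • (D.be 1 • t 0 - D.be 0 • t 1))
        + C (D.be b) * ((D.det 0 1)⁻¹ • (D.al 0 • t 1 - D.al 1 • t 0)) := by
    intro t ht b
    rw [← smul_eq_C_mul, ← smul_eq_C_mul]
    refine hL D t 0 1 (by decide) (fun b => ?_) b
    have e0 : ∀ b b', D.det b b' = - D.det b' b := fun b b' => by simp only [BData.det]; ring
    have e1 : ∀ b, D.det b b = 0 := fun b => by simp only [BData.det]; ring
    fin_cases b
    · change D.det 0 1 • t 0 + D.det 1 0 • t 0 + D.det 0 0 • t 1 = 0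
      rw [e1, e0 1 0]
      module
    · change D.det 0 1 • t 1 + D.det 1 1 • t 0 + D.det 1 0 • t 1 = 0
      rw [e1, e0 1 0]
      module
    · change D.det 0 1 • t 2 + D.det 1 2 • t 0 + D.det 2 0 • t 1 = 0
      rw [smul_eq_C_mul, smul_eq_C_mul, smul_eq_C_mul, ← ht]
      ring
  refine ⟨d, c, τ, (D.det 0 1)⁻¹ • (D.be 1 • τ 0 ^ D.l 0 - D.be 0 • τ 1 ^ D.l 1),
    (D.det 0 1)⁻¹ • (D.al 0 • τ 1 ^ D.l 1 - D.al 1 • τ 0 ^ D.l 0), hd, hc, ?_, ?_⟩
  · refine ⟨fun j => (hτ j).2, fun j => (hτ j).1, fun b => ?_, fun b => ?_, hcop⟩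
    · rw [filter_eq D hbl, Finset.sum_singleton]
      exact hc b
    · rw [huu b]
      refine key (fun b => τ b ^ D.l b) ?_ b
      rw [Fin.sum_univ_three] at hrel
      exact hrel
  · intro P hP
    obtain ⟨σ, hσ, hs⟩ := hreg (C (D.det 1 2) * P 0 + C (D.det 2 0) * P 1 + C (D.det 0 1) * P 2)
      (natDegree_add_le_of_degree_le (natDegree_add_le_of_degree_le
        ((natDegree_C_mul_le _ _).trans (hP 0)) ((natDegree_C_mul_le _ _).trans (hP 1)))
        ((natDegree_C_mul_le _ _).trans (hP 2)))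
    set t : Fin 3 → ℂ[X] := fun b => D.du τ σ b - P b with ht
    have htdeg : ∀ b, (t b).natDegree ≤ d := by
      intro b
      rw [ht]
      refine (natDegree_sub_le _ _).trans (max_le ?_ (hP b))
      rw [hdu]
      have h1 : (C (D.l b : ℂ) * τ b ^ (D.l b - 1) * σ b).natDegree
          ≤ (D.l b - 1) * c b + c b := by
        refine natDegree_mul_le.trans (add_le_add ?_ (hσ b))
        refine (natDegree_C_mul_le _ _).trans (natDegree_pow_le.trans ?_)
        rw [(hτ b).2]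
      refine h1.trans (le_of_eq ?_)
      have h2 : D.l b - 1 + 1 = D.l b := Nat.sub_add_cancel (D.l_pos b)
      calc (D.l b - 1) * c b + c b = (D.l b - 1 + 1) * c b := by ring
        _ = d := by rw [h2, hc b]
    have hk := key t (by
      rw [Fin.sum_univ_three] at hs
      simp only [ht, hdu]
      have h3 : (![D.det 1 2, D.det 2 0, D.det 0 1] : Fin 3 → ℂ) 0 = D.det 1 2 := rfl
      have h4 : (![D.det 1 2, D.det 2 0, D.det 0 1] : Fin 3 → ℂ) 1 = D.det 2 0 := rfl
      have h5 : (![D.det 1 2, D.det 2 0, D.det 0 1] : Fin 3 → ℂ) 2 = D.det 0 1 := rfl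
      rw [h3, h4, h5] at hs
      simp only [C_mul] at hs
      linear_combination hs)
    have hdeg2 : ∀ (x y z : ℂ), (x • (y • t 0 - z • t 1)).natDegree ≤ d := by
      intro x y z
      refine (natDegree_smul_le _ _).trans ((natDegree_sub_le _ _).trans (max_le ?_ ?_))
      · exact (natDegree_smul_le _ _).trans (htdeg 0)
      · exact (natDegree_smul_le _ _).trans (htdeg 1)
    have hdeg3 : ∀ (x y z : ℂ), (x • (y • t 1 - z • t 0)).natDegree ≤ d := by
      intro x y z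
      refine (natDegree_smul_le _ _).trans ((natDegree_sub_le _ _).trans (max_le ?_ ?_))
      · exact (natDegree_smul_le _ _).trans (htdeg 1)
      · exact (natDegree_smul_le _ _).trans (htdeg 0)
    refine ⟨σ, (D.det 0 1)⁻¹ • (D.be 1 • t 0 - D.be 0 • t 1),
      (D.det 0 1)⁻¹ • (D.al 0 • t 1 - D.al 1 • t 0), hσ, hdeg2 _ _ _, hdeg3 _ _ _, fun b => ?_⟩
    rw [← hk b, ht]
    ring

end

end Pool.C1.helper52
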